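import Mathlib
import Pool.Agent.Q256.VT.Fin

set_option autoImplicit false

namespace Pool.Agent.Q256.VS

open Finset MvPolynomial
open Pool.Agent.Q256.CI Pool.Agent.Q256.VT
open Pool.Agent.H813R3.Voj (rho rho_pos)

/-- systems in the boxes with a common zero `y ∈ 𝒴` of the first forms, cut out by small
hyperplanes, at which the values of the other forms are nonzero and have a small radical. -/
def SG {n s r : ℕ} (S : Finset ℕ) (e : Fin s → ℕ) (d : Fin r → ℕ)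
    (𝒴 : Set (Fin (n + 1) → ℤ)) (H T : ℕ) (R : (Fin (n + 1) → ℤ) → ℝ) :
    Set ((Fin s → MvPolynomial (Fin (n + 1)) ℤ) × (Fin r → MvPolynomial (Fin (n + 1)) ℤ)) :=
  {P | ((∀ j, P.1 j ∈ Box n (e j) H) ∧ ∀ i, P.2 i ∈ Box n (d i) H) ∧ ∃ y ∈ 𝒴, Prim y ∧
    CutOut T (fun k => (y k : ℚ)) ∧ (∀ j, eval y (P.1 j) = 0) ∧ (∀ i, eval y (P.2 i) ≠ 0) ∧
    (rho S (∏ i, eval y (P.2 i)) : ℝ) ≤ R y}

theorem sg_finite {n s r : ℕ} (S : Finset ℕ) (e : Fin s → ℕ) (d : Fin r → ℕ)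
    (𝒴 : Set (Fin (n + 1) → ℤ)) (H T : ℕ) (R : (Fin (n + 1) → ℤ) → ℝ) :
    (SG S e d 𝒴 H T R).Finite := by
  have h1 : {F : Fin s → MvPolynomial (Fin (n + 1)) ℤ | ∀ j, F j ∈ Box n (e j) H}.Finite :=
    (Set.Finite.pi' (fun i => finite_box n (e i) H)).subset (fun F h i => h i)
  have h2 : {F : Fin r → MvPolynomial (Fin (n + 1)) ℤ | ∀ j, F j ∈ Box n (d j) H}.Finite :=
    (Set.Finite.pi' (fun i => finite_box n (d i) H)).subset (fun F h i => h i)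
  refine (h1.prod h2).subset ?_
  rintro F ⟨h, _⟩
  exact ⟨h.1, h.2⟩

/-- the count for one point. -/
theorem count_yG {n s r : ℕ} (S : Finset ℕ) (e : Fin s → ℕ) (d : Fin r → ℕ) (H T : ℕ)
    (hT : 1 ≤ T) (hHT : H ≤ T)
    (y : Fin (n + 1) → ℤ) (hy : Prim y) (hcut : CutOut T (fun k => (y k : ℚ))) (R : ℝ)
    (A : Finset ((Fin s → MvPolynomial (Fin (n + 1)) ℤ) × (Fin r → MvPolynomial (Fin (n + 1)) ℤ)))
    (hA : ∀ P ∈ A, ((∀ j, P.1 j ∈ Box n (e j) H) ∧ ∀ i, P.2 i ∈ Box n (d i) H) ∧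
      (∀ j, eval y (P.1 j) = 0) ∧ (∀ i, eval y (P.2 i) ≠ 0) ∧
      (rho S (∏ i, eval y (P.2 i)) : ℝ) ≤ R) :
    (#A : ℝ) ≤ (∏ j, (K n (e j) * (T : ℝ) ^ ((n + e j).choose n - 1) *
        (((qq y : ℕ) : ℝ) ^ e j)⁻¹)) *
      (#(Tup S (fun i => (n + d i).choose n * (T * qq y ^ d i)) R) *
      ∏ i, (K n (d i) * (T : ℝ) ^ ((n + d i).choose n - 1) * (((qq y : ℕ) : ℝ) ^ d i)⁻¹)) := by
  classical
  have hsub : A ⊆ (Fintype.piFinset (fun j => (finite_vanC n (e j) H y 0).toFinset)) ×ˢ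
      (A.image Prod.snd) := by
    intro P hP
    rw [mem_product]
    refine ⟨?_, mem_image_of_mem _ hP⟩
    rw [Fintype.mem_piFinset]
    intro j
    rw [Set.Finite.mem_toFinset]
    exact ⟨(hA P hP).1.1 j, (hA P hP).2.1 j⟩
  have h1 := card_le_card hsub
  rw [card_product] at h1
  have h2 := count_y S d H T hT hHT y hy hcut R (A.image Prod.snd) (by
    intro F hF
    obtain ⟨P, hP, rfl⟩ := mem_image.1 hF
    exact ⟨(hA P hP).1.2, (hA P hP).2.2⟩)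
  obtain ⟨L, hL, hind, horth⟩ := hcut
  obtain ⟨k0, hk0⟩ := exists_qq y
  have hq1 : 1 ≤ qq y := qq_pos y hy.ne
  have h3 : (#(Fintype.piFinset (fun j => (finite_vanC n (e j) H y 0).toFinset)) : ℝ) ≤
      ∏ j, (K n (e j) * (T : ℝ) ^ ((n + e j).choose n - 1) * (((qq y : ℕ) : ℝ) ^ e j)⁻¹) := by
    rw [Fintype.card_piFinset]
    push_cast
    refine prod_le_prod (fun i _ => Nat.cast_nonneg _) (fun i _ => ?_)
    have h8 : #((finite_vanC n (e i) H y 0).toFinset) = Nat.card (VanC n (e i) H y 0) := by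
      rw [Nat.card_coe_set_eq, Set.ncard_eq_toFinset_card _ (finite_vanC n (e i) H y 0)]
    rw [h8]
    exact countC_real y hy (qq y) hq1 k0 hk0 T hT L hL hind horth (e i) H hHT 0
  have h4 : (#A : ℝ) ≤ (#(Fintype.piFinset (fun j => (finite_vanC n (e j) H y 0).toFinset)) : ℝ) *
      (#(A.image Prod.snd) : ℝ) := by exact_mod_cast h1
  refine h4.trans (mul_le_mul h3 h2 (Nat.cast_nonneg _) ?_)
  refine prod_nonneg (fun j _ => ?_)
  have := K_nonneg n (e j)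
  positivity

theorem prod_KT {n s : ℕ} (e : Fin s → ℕ) (T : ℕ) (q : ℕ) (hT : 1 ≤ T) (hq : 1 ≤ q) :
    ∏ j, (K n (e j) * (T : ℝ) ^ ((n + e j).choose n - 1) * (((q : ℕ) : ℝ) ^ e j)⁻¹) =
      (∏ j, K n (e j)) * (T : ℝ) ^ ((∑ j, ((n + e j).choose n : ℝ)) - s) *
        ((q : ℕ) : ℝ) ^ (-(∑ j, (e j : ℝ))) := by
  have hT0 : (0 : ℝ) < T := by exact_mod_cast hT
  have hq0 : (0 : ℝ) < (q : ℝ) := by exact_mod_cast hq
  have hs : (∑ j, (e j : ℝ)) = ((∑ j, e j : ℕ) : ℝ) := by push_cast; rfl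
  rw [hs, prod_mul_distrib, prod_mul_distrib,
    prod_pow_eq_pow_sum univ (fun j => (n + e j).choose n - 1) (T : ℝ), prod_inv_distrib,
    prod_pow_eq_pow_sum univ e ((q : ℕ) : ℝ), Real.rpow_neg hq0.le,
    Real.rpow_natCast]
  congr 2
  rw [← Real.rpow_natCast]
  congr 1
  have : ((∑ j, ((n + e j).choose n - 1) : ℕ) : ℝ) = ∑ j, (((n + e j).choose n : ℝ) - 1) := by
    push_cast
    refine sum_congr rfl (fun i _ => ?_)
    rw [Nat.cast_sub (Nat.choose_pos (Nat.le_add_right _ _))]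
    simp
  rw [this, sum_sub_distrib]
  simp

/-- The number of systems with a point at which the radical is small. -/
theorem main_countG {n s r : ℕ} (S : Finset ℕ) (e : Fin s → ℕ) (d : Fin r → ℕ)
    (hd : ∀ i, 1 ≤ d i) (𝒴 : Set (Fin (n + 1) → ℤ)) (w : (Fin (n + 1) → ℤ) → ℝ)
    (ε : ℝ) (hε : 0 < ε)
    (hw : Summable (fun y : 𝒴 => Real.exp (-w y) * ((qq (y : Fin (n + 1) → ℤ) : ℕ) : ℝ) ^ (-(ε / 2)))) :
    ∃ C : ℝ, 0 ≤ C ∧ ∀ (lam δ : ℝ) (H T : ℕ), 0 ≤ lam → 1 ≤ T → H ≤ T →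
      (Nat.card (SG (n := n) S e d 𝒴 H T (fun y => lam * ((T : ℝ) ^ ((s : ℝ) + r - δ) *
        (((qq y : ℕ) : ℝ) ^ ((∑ j, (e j : ℝ)) + (∑ i, (d i : ℝ)) - ε) * Real.exp (-w y))))) : ℝ) ≤
        C * lam * (T : ℝ) ^ ((∑ j, ((n + e j).choose n : ℝ)) +
          (∑ i, ((n + d i).choose n : ℝ)) - δ + ε) := by
  classical
  set D : ℕ := ∑ i, d i with hD
  have hDr : (∑ i, (d i : ℝ)) = D := by rw [hD]; push_cast; rfl
  have hrD : r ≤ D := by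
    calc r = ∑ _i : Fin r, 1 := by simp
      _ ≤ D := sum_le_sum (fun i _ => hd i)
  have hrDr : (r : ℝ) ≤ D := by exact_mod_cast hrD
  set η : ℝ := ε / (2 * (D + 1)) with hη
  have hD0 : (0 : ℝ) ≤ D := Nat.cast_nonneg _
  have hη0 : 0 < η := by positivity
  have hDη : D * η ≤ ε / 2 := by
    rw [hη, mul_div_assoc', div_le_div_iff₀ (by positivity) (by norm_num)]
    nlinarith
  have hrη : r * η ≤ ε := by
    have : (r : ℝ) * η ≤ D * η := mul_le_mul_of_nonneg_right hrDr hη0.le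
    linarith
  obtain ⟨C1, hC1, hTup⟩ := card_tup r S η hη0
  set N0 : ℕ := ∏ i, (n + d i).choose n with hN0
  have hN0' : 1 ≤ N0 := Nat.one_le_iff_ne_zero.2 (prod_ne_zero_iff.2 (fun i _ =>
    (Nat.choose_pos (Nat.le_add_right _ _)).ne'))
  set P1 : ℝ := ∏ j, K n (e j) with hP1
  have hP10 : 0 ≤ P1 := prod_nonneg (fun i _ => K_nonneg n (e i))
  set P2 : ℝ := ∏ i, K n (d i) with hP2
  have hP20 : 0 ≤ P2 := prod_nonneg (fun i _ => K_nonneg n (d i))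
  let g : (Fin (n + 1) → ℤ) → ℝ := fun y =>
    Real.exp (-w y) * ((qq y : ℕ) : ℝ) ^ (-(ε / 2))
  have hg0 : ∀ y, 0 ≤ g y := fun y => by
    change 0 ≤ Real.exp (-w y) * ((qq y : ℕ) : ℝ) ^ (-(ε / 2))
    positivity
  set Sg : ℝ := ∑' y : 𝒴, g y with hSg
  refine ⟨C1 * (N0 : ℝ) ^ η * P1 * P2 * Sg, ?_, ?_⟩
  · exact mul_nonneg (by positivity) (tsum_nonneg (fun y => hg0 _))
  intro lam δ H T hlam hT hHT
  set Rf : (Fin (n + 1) → ℤ) → ℝ := fun y => lam * ((T : ℝ) ^ ((s : ℝ) + r - δ) *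
        (((qq y : ℕ) : ℝ) ^ ((∑ j, (e j : ℝ)) + (∑ i, (d i : ℝ)) - ε) * Real.exp (-w y))) with hRf
  have hTr : (1 : ℝ) ≤ T := by exact_mod_cast hT
  have hT0 : (0 : ℝ) < T := by linarith
  have key : ∀ F : (Fin s → MvPolynomial (Fin (n + 1)) ℤ) ×
      (Fin r → MvPolynomial (Fin (n + 1)) ℤ), ∃ y : Fin (n + 1) → ℤ,
      F ∈ SG (n := n) S e d 𝒴 H T Rf → y ∈ 𝒴 ∧ Prim y ∧ CutOut T (fun k => (y k : ℚ)) ∧
        (((∀ j, F.1 j ∈ Box n (e j) H) ∧ ∀ i, F.2 i ∈ Box n (d i) H) ∧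
          (∀ j, eval y (F.1 j) = 0) ∧ (∀ i, eval y (F.2 i) ≠ 0) ∧
        (rho S (∏ i, eval y (F.2 i)) : ℝ) ≤ Rf y) := by
    intro F
    by_cases hF : F ∈ SG (n := n) S e d 𝒴 H T Rf
    · obtain ⟨h1, y, h2, h3, h4, h5, h6, h7⟩ := hF
      exact ⟨y, fun _ => ⟨h2, h3, h4, h1, h5, h6, h7⟩⟩
    · exact ⟨0, fun h => absurd h hF⟩
  choose Y hY using key
  let B : Finset ((Fin s → MvPolynomial (Fin (n + 1)) ℤ) ×
      (Fin r → MvPolynomial (Fin (n + 1)) ℤ)) := (sg_finite (n := n) S e d 𝒴 H T Rf).toFinset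
  have hB : ∀ F, F ∈ B ↔ F ∈ SG (n := n) S e d 𝒴 H T Rf := fun F => Set.Finite.mem_toFinset _
  have hcard : Nat.card (SG (n := n) S e d 𝒴 H T Rf) = #B := by
    rw [Nat.card_coe_set_eq, Set.ncard_eq_toFinset_card _ (sg_finite (n := n) S e d 𝒴 H T Rf)]
  rw [hcard, card_eq_sum_card_image Y B]
  push_cast
  set E : ℝ := (∑ j, ((n + e j).choose n : ℝ)) + (∑ i, ((n + d i).choose n : ℝ)) - δ + ε with hE
  have hone : ∀ y ∈ B.image Y, (#{F ∈ B | Y F = y} : ℝ) ≤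
      C1 * (N0 : ℝ) ^ η * P1 * P2 * lam * (T : ℝ) ^ E * g y := by
    intro y hy
    obtain ⟨F0, hF0, rfl⟩ := Finset.mem_image.1 hy
    obtain ⟨-, hprim, hcut, -⟩ := hY F0 ((hB F0).1 hF0)
    set y := Y F0 with hydef
    have hq1 : 1 ≤ qq y := qq_pos y hprim.ne
    have hq1r : (1 : ℝ) ≤ ((qq y : ℕ) : ℝ) := by exact_mod_cast hq1
    have hq0 : (0 : ℝ) < ((qq y : ℕ) : ℝ) := by linarith
    have h1 := count_yG S e d H T hT hHT y hprim hcut (Rf y) {F ∈ B | Y F = y} (by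
      intro F hF
      rw [mem_filter] at hF
      have := hY F ((hB F).1 hF.1)
      rw [hF.2] at this
      exact this.2.2.2)
    have hRy : 0 ≤ Rf y := by rw [hRf]; positivity
    have h2 := hTup (fun i => (n + d i).choose n * (T * qq y ^ d i)) (Rf y) (fun i => by
      have e1 : 0 < (n + d i).choose n := Nat.choose_pos (Nat.le_add_right _ _)
      have e2 : 0 < T * qq y ^ d i := by positivity
      exact Nat.mul_pos e1 e2) hRy
    have h3 : ((∏ i, ((n + d i).choose n * (T * qq y ^ d i)) : ℕ) : ℝ) =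
        N0 * ((T : ℝ) ^ r * ((qq y : ℕ) : ℝ) ^ D) := by
      rw [prod_mul_distrib, prod_mul_distrib, prod_const, card_univ, Fintype.card_fin,
        prod_pow_eq_pow_sum]
      rw [hN0, hD]
      push_cast
      rfl
    rw [h3] at h2
    have h4 : (N0 * ((T : ℝ) ^ r * ((qq y : ℕ) : ℝ) ^ D)) ^ η =
        (N0 : ℝ) ^ η * ((T : ℝ) ^ (r * η) * ((qq y : ℕ) : ℝ) ^ (D * η)) := by
      rw [Real.mul_rpow (by positivity) (by positivity),
        Real.mul_rpow (by positivity) (by positivity), ← Real.rpow_natCast (T : ℝ) r,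
        ← Real.rpow_mul hT0.le, ← Real.rpow_natCast ((qq y : ℕ) : ℝ) D, ← Real.rpow_mul hq0.le]
    rw [h4] at h2
    rw [prod_KT e T (qq y) hT hq1, prod_KT d T (qq y) hT hq1, ← hP1, ← hP2] at h1
    have h6 : (#{F ∈ B | Y F = y} : ℝ) ≤
        (P1 * (T : ℝ) ^ ((∑ j, ((n + e j).choose n : ℝ)) - s) *
          ((qq y : ℕ) : ℝ) ^ (-(∑ j, (e j : ℝ)))) *
        ((C1 * Rf y * ((N0 : ℝ) ^ η * ((T : ℝ) ^ (r * η) * ((qq y : ℕ) : ℝ) ^ (D * η)))) *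
        (P2 * (T : ℝ) ^ ((∑ i, ((n + d i).choose n : ℝ)) - r) *
          ((qq y : ℕ) : ℝ) ^ (-(∑ i, (d i : ℝ))))) :=
      h1.trans (mul_le_mul_of_nonneg_left (mul_le_mul_of_nonneg_right h2 (by positivity))
        (by positivity))
    refine h6.trans ?_
    have h7 : (P1 * (T : ℝ) ^ ((∑ j, ((n + e j).choose n : ℝ)) - s) *
          ((qq y : ℕ) : ℝ) ^ (-(∑ j, (e j : ℝ)))) *
        ((C1 * Rf y * ((N0 : ℝ) ^ η * ((T : ℝ) ^ (r * η) * ((qq y : ℕ) : ℝ) ^ (D * η)))) *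
        (P2 * (T : ℝ) ^ ((∑ i, ((n + d i).choose n : ℝ)) - r) *
          ((qq y : ℕ) : ℝ) ^ (-(∑ i, (d i : ℝ))))) =
        C1 * (N0 : ℝ) ^ η * P1 * P2 * lam *
        ((T : ℝ) ^ ((s : ℝ) + r - δ) * (T : ℝ) ^ (r * η) *
          (T : ℝ) ^ ((∑ j, ((n + e j).choose n : ℝ)) - s) *
          (T : ℝ) ^ ((∑ i, ((n + d i).choose n : ℝ)) - r)) *
        (Real.exp (-w y) * (((qq y : ℕ) : ℝ) ^ ((∑ j, (e j : ℝ)) + (∑ i, (d i : ℝ)) - ε) *
          ((qq y : ℕ) : ℝ) ^ (D * η) * ((qq y : ℕ) : ℝ) ^ (-(∑ j, (e j : ℝ))) *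
          ((qq y : ℕ) : ℝ) ^ (-(∑ i, (d i : ℝ))))) := by
      rw [hRf]; ring
    rw [h7, ← Real.rpow_add hT0, ← Real.rpow_add hT0, ← Real.rpow_add hT0, ← Real.rpow_add hq0,
      ← Real.rpow_add hq0, ← Real.rpow_add hq0]
    have h8 : (T : ℝ) ^ ((s : ℝ) + r - δ + r * η + ((∑ j, ((n + e j).choose n : ℝ)) - s) +
        ((∑ i, ((n + d i).choose n : ℝ)) - r)) ≤
        (T : ℝ) ^ E := Real.rpow_le_rpow_of_exponent_le hTr (by rw [hE]; linarith)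
    have h9 : ((qq y : ℕ) : ℝ) ^ ((∑ j, (e j : ℝ)) + (∑ i, (d i : ℝ)) - ε + D * η +
        -(∑ j, (e j : ℝ)) + -(∑ i, (d i : ℝ))) ≤
        ((qq y : ℕ) : ℝ) ^ (-(ε / 2)) := Real.rpow_le_rpow_of_exponent_le hq1r (by linarith)
    have h10 : (0 : ℝ) ≤ C1 * (N0 : ℝ) ^ η * P1 * P2 * lam := by positivity
    exact mul_le_mul (mul_le_mul_of_nonneg_left h8 h10)
      (mul_le_mul_of_nonneg_left h9 (Real.exp_pos _).le) (by positivity) (by positivity)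
  have himg : ∀ y ∈ B.image Y, y ∈ 𝒴 := by
    intro y hy
    obtain ⟨F0, hF0, rfl⟩ := Finset.mem_image.1 hy
    exact (hY F0 ((hB F0).1 hF0)).1
  have hsumle : ∑ y ∈ B.image Y, g y ≤ Sg := by
    have h1 : ∑ y ∈ B.image Y, g y = ∑ y ∈ (B.image Y).subtype (· ∈ 𝒴), g (y : Fin (n + 1) → ℤ) := by
      rw [Finset.sum_subtype_of_mem g himg]
    rw [h1]
    exact hw.sum_le_tsum _ (fun y _ => hg0 _)
  calc ∑ y ∈ B.image Y, (#{F ∈ B | Y F = y} : ℝ)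
      ≤ ∑ y ∈ B.image Y, C1 * (N0 : ℝ) ^ η * P1 * P2 * lam * (T : ℝ) ^ E * g y := sum_le_sum hone
    _ = C1 * (N0 : ℝ) ^ η * P1 * P2 * lam * (T : ℝ) ^ E * ∑ y ∈ B.image Y, g y := by rw [mul_sum]
    _ ≤ C1 * (N0 : ℝ) ^ η * P1 * P2 * lam * (T : ℝ) ^ E * Sg :=
        mul_le_mul_of_nonneg_left hsumle (by positivity)
    _ = _ := by ring

end Pool.Agent.Q256.VS
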