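import Mathlib
import Pool.Agent.Q256.VS.Main

set_option autoImplicit false

namespace Pool.Agent.Q256.VS

open Finset MvPolynomial
open Pool.Agent.Q256.CI Pool.Agent.Q256.VT
open Pool.Agent.H813R3.Voj (rho rho_pos)

/-- pairs of systems of forms. -/
abbrev Sys (n s r : ℕ) : Type :=
  (Fin s → MvPolynomial (Fin (n + 1)) ℤ) × (Fin r → MvPolynomial (Fin (n + 1)) ℤ)

/-- the pairs `(G, F)` of systems of forms of degrees `e`, `d` with coefficients in `[-H, H]`. -/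
def InBox {n s r : ℕ} (e : Fin s → ℕ) (d : Fin r → ℕ) (H : ℕ) (P : Sys n s r) : Prop :=
  (∀ j, P.1 j ∈ Box n (e j) H) ∧ ∀ i, P.2 i ∈ Box n (d i) H

/-- the pairs `(X, D)` for which the truncated inequality fails at some point of `𝒴` on `X`, outside
`D`, which is cut out by hyperplanes with coefficients at most `T`. -/
def Fails {n s r : ℕ} (S : Finset ℕ) (e : Fin s → ℕ) (d : Fin r → ℕ)
    (𝒴 : Set (Fin (n + 1) → ℤ)) (w : (Fin (n + 1) → ℤ) → ℝ) (H T : ℕ) (ε δ : ℝ) :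
    Set (Sys n s r) :=
  {P | InBox e d H P ∧ ∃ y ∈ 𝒴, CutOut T (fun k => (y k : ℚ)) ∧ (∀ j, eval y (P.1 j) = 0) ∧
    (∀ i, eval y (P.2 i) ≠ 0) ∧
    N1 S P.2 y < ((∑ j, (e j : ℝ)) + (∑ i, (d i : ℝ)) - ε) * ht y - w y +
      ((s : ℝ) + r - δ) * Real.log T}

/-- the pairs `(X, D)` for which `X` has a point of `𝒴`, cut out by hyperplanes with coefficients at
most `T`, at which each prime outside `S` which divides `F i (y)` divides it at least `m i` times. -/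
def Camp {n s r : ℕ} (S : Finset ℕ) (e : Fin s → ℕ) (d m : Fin r → ℕ)
    (𝒴 : Set (Fin (n + 1) → ℤ)) (H T : ℕ) : Set (Sys n s r) :=
  {P | InBox e d H P ∧ ∃ y ∈ 𝒴, CutOut T (fun k => (y k : ℚ)) ∧ (∀ j, eval y (P.1 j) = 0) ∧
    ∀ i, eval y (P.2 i) ≠ 0 ∧ ∀ p : ℕ, p.Prime → p ∉ S → (p : ℤ) ∣ eval y (P.2 i) →
      (p : ℤ) ^ m i ∣ eval y (P.2 i)}

/-- the pairs `(X, D)` for which `X \ D` has an `S`-integral point in `𝒴`, cut out by hyperplanes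
with coefficients at most `T`. -/
def IntS {n s r : ℕ} (S : Finset ℕ) (e : Fin s → ℕ) (d : Fin r → ℕ)
    (𝒴 : Set (Fin (n + 1) → ℤ)) (H T : ℕ) : Set (Sys n s r) :=
  {P | InBox e d H P ∧ ∃ y ∈ 𝒴, CutOut T (fun k => (y k : ℚ)) ∧ (∀ j, eval y (P.1 j) = 0) ∧
    ∀ i, eval y (P.2 i) ≠ 0 ∧ ∀ p : ℕ, p.Prime → (p : ℤ) ∣ eval y (P.2 i) → p ∈ S}

/-- the condition on the set of points `𝒴` and the function `w`. -/
def Conv {n : ℕ} (𝒴 : Set (Fin (n + 1) → ℤ)) (w : (Fin (n + 1) → ℤ) → ℝ) : Prop :=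
  ∀ ε : ℝ, 0 < ε → Summable (fun y : 𝒴 => Real.exp (-(w y + ε * ht (y : Fin (n + 1) → ℤ))))

theorem exp_eq {n : ℕ} (y : Fin (n + 1) → ℤ) (hy : y ≠ 0) (w ε : ℝ) :
    Real.exp (-(w + ε * ht y)) = Real.exp (-w) * ((qq y : ℕ) : ℝ) ^ (-ε) := by
  have hq0 : (0 : ℝ) < ((qq y : ℕ) : ℝ) := by exact_mod_cast qq_pos y hy
  rw [Real.rpow_def_of_pos hq0, ← Real.exp_add]
  congr 1
  unfold ht
  ring

theorem engine {n s r : ℕ} (S : Finset ℕ) (e : Fin s → ℕ) (d : Fin r → ℕ)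
    (hd : ∀ i, 1 ≤ d i) (𝒴 : Set (Fin (n + 1) → ℤ)) (hprim : ∀ y ∈ 𝒴, Prim y)
    (w : (Fin (n + 1) → ℤ) → ℝ) (hw : Conv 𝒴 w) (ε : ℝ) (hε : 0 < ε) :
    ∃ C : ℝ, 0 ≤ C ∧ ∀ (lam δ : ℝ) (H T : ℕ), 0 ≤ lam → 1 ≤ T → H ≤ T → ∀ B : Set (Sys n s r),
      (∀ P ∈ B, InBox e d H P ∧ ∃ y ∈ 𝒴, CutOut T (fun k => (y k : ℚ)) ∧
        (∀ j, eval y (P.1 j) = 0) ∧ (∀ i, eval y (P.2 i) ≠ 0) ∧
        (rho S (∏ i, eval y (P.2 i)) : ℝ) ≤ lam * ((T : ℝ) ^ ((s : ℝ) + r - δ) *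
        (((qq y : ℕ) : ℝ) ^ ((∑ j, (e j : ℝ)) + (∑ i, (d i : ℝ)) - ε) * Real.exp (-w y)))) →
      (Nat.card B : ℝ) ≤
        C * lam * (T : ℝ) ^ ((∑ j, ((n + e j).choose n : ℝ)) +
          (∑ i, ((n + d i).choose n : ℝ)) - δ + ε) := by
  obtain ⟨C, hC, h⟩ := main_countG (n := n) S e d hd 𝒴 w ε hε (by
    refine (hw (ε / 2) (by positivity)).congr (fun y => ?_)
    exact exp_eq _ (hprim y y.2).ne _ _)
  refine ⟨C, hC, fun lam δ H T hlam hT hHT B hB => ?_⟩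
  refine (card_le_of_sub ?_ (sg_finite (n := n) S e d 𝒴 H T _)).trans (h lam δ H T hlam hT hHT)
  intro P hP
  obtain ⟨h1, y, h2, h3, h4, h5, h6⟩ := hB P hP
  exact ⟨h1, y, h2, hprim y h2, h3, h4, h5, h6⟩

theorem N1_eq {n r : ℕ} (S : Finset ℕ) (F : Fin r → MvPolynomial (Fin (n + 1)) ℤ)
    (y : Fin (n + 1) → ℤ) : N1 S F y = Real.log (rho S (∏ i, eval y (F i))) := by
  unfold N1 rho
  push_cast
  rw [Real.log_prod]
  intro p hp
  rw [mem_sdiff] at hp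
  exact_mod_cast (Nat.prime_of_mem_primeFactors hp.1).ne_zero

theorem fails {n s r : ℕ} (S : Finset ℕ) (e : Fin s → ℕ) (d : Fin r → ℕ)
    (hd : ∀ i, 1 ≤ d i) (𝒴 : Set (Fin (n + 1) → ℤ)) (hprim : ∀ y ∈ 𝒴, Prim y)
    (w : (Fin (n + 1) → ℤ) → ℝ) (hw : Conv 𝒴 w) (ε : ℝ) (hε : 0 < ε) :
    ∃ C : ℝ, ∀ (δ : ℝ) (H T : ℕ), 1 ≤ T → H ≤ T →
      (Nat.card (Fails S e d 𝒴 w H T ε δ) : ℝ) ≤
        C * (T : ℝ) ^ ((∑ j, ((n + e j).choose n : ℝ)) +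
          (∑ i, ((n + d i).choose n : ℝ)) - δ + ε) := by
  obtain ⟨C, hC, h⟩ := engine (n := n) S e d hd 𝒴 hprim w hw ε hε
  refine ⟨C, fun δ H T hT hHT => ?_⟩
  have h1 := h 1 δ H T zero_le_one hT hHT (Fails S e d 𝒴 w H T ε δ) ?_
  · rw [mul_one] at h1; exact h1
  rintro P ⟨hP, y, hy, hcut, hz, hne, hlt⟩
  refine ⟨hP, y, hy, hcut, hz, hne, ?_⟩
  have hT0 : (0 : ℝ) < T := by exact_mod_cast hT
  have hq0 : (0 : ℝ) < ((qq y : ℕ) : ℝ) := by exact_mod_cast qq_pos y (hprim y hy).ne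
  have hrho : (0 : ℝ) < rho S (∏ i, eval y (P.2 i)) := by exact_mod_cast rho_pos S _
  rw [N1_eq] at hlt
  have h2 : ((rho S (∏ i, eval y (P.2 i)) : ℕ) : ℝ) <
      (T : ℝ) ^ ((s : ℝ) + r - δ) *
        (((qq y : ℕ) : ℝ) ^ ((∑ j, (e j : ℝ)) + (∑ i, (d i : ℝ)) - ε) * Real.exp (-w y)) := by
    rw [Real.rpow_def_of_pos hT0, Real.rpow_def_of_pos hq0, ← Real.exp_add, ← Real.exp_add,
      ← Real.log_lt_iff_lt_exp hrho]
    refine hlt.trans_le (le_of_eq ?_)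
    unfold ht
    ring
  rw [one_mul]
  exact h2.le

/-- integral points. -/
theorem ints {n s r : ℕ} (S : Finset ℕ) (e : Fin s → ℕ) (d : Fin r → ℕ)
    (hd : ∀ i, 1 ≤ d i) (𝒴 : Set (Fin (n + 1) → ℤ)) (hprim : ∀ y ∈ 𝒴, Prim y)
    (w : (Fin (n + 1) → ℤ) → ℝ) (hw : Conv 𝒴 w) (g c : ℝ) (hg : 0 < g)
    (hbig : ∀ y ∈ 𝒴, w y ≤ ((∑ j, (e j : ℝ)) + (∑ i, (d i : ℝ)) - g) * ht y + c)
    (ε : ℝ) (hε : 0 < ε) :
    ∃ C : ℝ, ∀ (H T : ℕ), 1 ≤ T → H ≤ T →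
      (Nat.card (IntS S e d 𝒴 H T) : ℝ) ≤
        C * (T : ℝ) ^ ((∑ j, ((n + e j).choose n : ℝ)) +
          (∑ i, ((n + d i).choose n : ℝ)) - (s + r) + ε) := by
  classical
  have hε1 : 0 < min ε g := lt_min hε hg
  obtain ⟨C, hC, h⟩ := engine (n := n) S e d hd 𝒴 hprim w hw (min ε g) hε1
  refine ⟨C * Real.exp c, fun H T hT hHT => ?_⟩
  have hTr : (1 : ℝ) ≤ T := by exact_mod_cast hT
  have h1 := h (Real.exp c) ((s : ℝ) + r) H T (Real.exp_pos _).le hT hHT (IntS S e d 𝒴 H T) ?_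
  · refine h1.trans (mul_le_mul_of_nonneg_left (Real.rpow_le_rpow_of_exponent_le hTr ?_)
      (by positivity))
    linarith [min_le_left ε g]
  rintro P ⟨hP, y, hy, hcut, hz, hall⟩
  refine ⟨hP, y, hy, hcut, hz, fun i => (hall i).1, ?_⟩
  have hq1 : (1 : ℝ) ≤ ((qq y : ℕ) : ℝ) := by exact_mod_cast qq_pos y (hprim y hy).ne
  have hq0 : (0 : ℝ) < ((qq y : ℕ) : ℝ) := by linarith
  have hrho : rho S (∏ i, eval y (P.2 i)) = 1 := by
    unfold rho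
    have : (∏ i, eval y (P.2 i)).natAbs.primeFactors \ S = ∅ := by
      rw [Finset.sdiff_eq_empty_iff_subset]
      intro p hp
      have hpp := Nat.prime_of_mem_primeFactors hp
      have hdvd : (p : ℤ) ∣ ∏ i, eval y (P.2 i) :=
        Int.natCast_dvd.2 (Nat.dvd_of_mem_primeFactors hp)
      obtain ⟨i, -, hi⟩ := (Nat.prime_iff_prime_int.1 hpp).exists_mem_finset_dvd hdvd
      exact (hall i).2 p hpp hi
    rw [this, prod_empty]
  rw [hrho, sub_self, Real.rpow_zero, one_mul, Nat.cast_one, Real.rpow_def_of_pos hq0,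
    ← Real.exp_add, ← Real.exp_add]
  refine Real.one_le_exp ?_
  have h2 := hbig y hy
  have h3 : 0 ≤ ht y := Real.log_nonneg hq1
  have h4 : min ε g * ht y ≤ g * ht y := mul_le_mul_of_nonneg_right (min_le_right _ _) h3
  unfold ht at h2 h3 h4
  nlinarith

/-- Campana points. -/
theorem camp {n s r : ℕ} (S : Finset ℕ) (e : Fin s → ℕ) (d m : Fin r → ℕ)
    (hd : ∀ i, 1 ≤ d i) (hm : ∀ i, 1 ≤ m i) (𝒴 : Set (Fin (n + 1) → ℤ)) (hprim : ∀ y ∈ 𝒴, Prim y)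
    (w : (Fin (n + 1) → ℤ) → ℝ) (hw : Conv 𝒴 w) (g c : ℝ) (hg : 0 < g)
    (hbig : ∀ y ∈ 𝒴, w y ≤ ((∑ j, (e j : ℝ)) + (∑ i, (d i : ℝ) * (1 - 1 / (m i : ℝ))) - g) * ht y
      + c) (ε : ℝ) (hε : 0 < ε) :
    ∃ C : ℝ, ∀ (H T : ℕ), 1 ≤ T → H ≤ T →
      (Nat.card (Camp S e d m 𝒴 H T) : ℝ) ≤
        C * (T : ℝ) ^ ((∑ j, ((n + e j).choose n : ℝ)) +
          (∑ i, ((n + d i).choose n : ℝ)) - (s + ∑ i, (1 - 1 / (m i : ℝ))) + ε) := by
  classical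
  have hε1 : 0 < min ε g := lt_min hε hg
  obtain ⟨C, hC, h⟩ := engine (n := n) S e d hd 𝒴 hprim w hw (min ε g) hε1
  set lam : ℝ := ∏ i, (((n + d i).choose n : ℝ)) ^ (1 / (m i : ℝ)) with hlam
  have hlam0 : 0 ≤ lam := prod_nonneg (fun i _ => by positivity)
  refine ⟨C * (lam * Real.exp c), fun H T hT hHT => ?_⟩
  have hTr : (1 : ℝ) ≤ T := by exact_mod_cast hT
  have hT0 : (0 : ℝ) < T := by linarith
  have h1 := h (lam * Real.exp c) ((s : ℝ) + r - ∑ i, 1 / (m i : ℝ)) H T (by positivity) hT hHT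
    (Camp S e d m 𝒴 H T) ?_
  · refine h1.trans (mul_le_mul_of_nonneg_left (Real.rpow_le_rpow_of_exponent_le hTr ?_)
      (by positivity))
    rw [sum_sub_distrib]
    simp only [sum_const, card_univ, Fintype.card_fin, nsmul_eq_mul, mul_one]
    linarith [min_le_left ε g]
  rintro P ⟨hP, y, hy, hcut, hz, hall⟩
  refine ⟨hP, y, hy, hcut, hz, fun i => (hall i).1, ?_⟩
  have hq1 : (1 : ℝ) ≤ ((qq y : ℕ) : ℝ) := by exact_mod_cast qq_pos y (hprim y hy).ne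
  have hq0 : (0 : ℝ) < ((qq y : ℕ) : ℝ) := by linarith
  have hone : ∀ i, ((rho S (eval y (P.2 i)) : ℕ) : ℝ) ≤
      ((n + d i).choose n : ℝ) ^ (1 / (m i : ℝ)) * (T : ℝ) ^ (1 / (m i : ℝ)) *
        ((qq y : ℕ) : ℝ) ^ ((d i : ℝ) * (1 / (m i : ℝ))) := by
    intro i
    have hmi : (0 : ℝ) < m i := by exact_mod_cast hm i
    have h3 := rho_pow_le S (eval y (P.2 i)) (hall i).1 (m i) (hall i).2
    have hbox : P.2 i ∈ Box n (d i) T :=
      ⟨(hP.2 i).1, fun α => ((hP.2 i).2 α).trans (by exact_mod_cast hHT)⟩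
    have h4 := size (P.2 i) hbox y (qq y : ℕ) (by positivity) (le_qq y)
    have h5 : ((rho S (eval y (P.2 i)) : ℕ) : ℝ) ^ (m i) ≤
        ((n + d i).choose n : ℝ) * (T * ((qq y : ℕ) : ℝ) ^ d i) := by
      have h6 : ((rho S (eval y (P.2 i)) ^ m i : ℕ) : ℝ) ≤
          (((eval y (P.2 i)).natAbs : ℕ) : ℝ) := by
        exact_mod_cast h3
      have h7 : (((eval y (P.2 i)).natAbs : ℕ) : ℤ) ≤
          ((n + d i).choose n : ℕ) * ((T : ℤ) * ((qq y : ℕ) : ℤ) ^ d i) := by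
        rw [← Int.abs_eq_natAbs]; exact h4
      have h8 : (((eval y (P.2 i)).natAbs : ℕ) : ℝ) ≤
          ((n + d i).choose n : ℝ) * (T * ((qq y : ℕ) : ℝ) ^ d i) := by exact_mod_cast h7
      rw [Nat.cast_pow] at h6
      exact h6.trans h8
    have h9 : ((rho S (eval y (P.2 i)) : ℕ) : ℝ) =
        (((rho S (eval y (P.2 i)) : ℕ) : ℝ) ^ (m i)) ^ (1 / (m i : ℝ)) := by
      rw [one_div, Real.pow_rpow_inv_natCast (Nat.cast_nonneg _) (by have := hm i; omega)]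
    rw [h9]
    refine (Real.rpow_le_rpow (by positivity) h5 (by positivity)).trans (le_of_eq ?_)
    rw [Real.mul_rpow (by positivity) (by positivity), Real.mul_rpow (by positivity) (by positivity),
      ← Real.rpow_natCast ((qq y : ℕ) : ℝ) (d i), ← Real.rpow_mul hq0.le]
    ring
  have h10 : ((rho S (∏ i, eval y (P.2 i)) : ℕ) : ℝ) ≤
      ∏ i, ((rho S (eval y (P.2 i)) : ℕ) : ℝ) := by
    exact_mod_cast rho_prod_le S (fun i => eval y (P.2 i)) (fun i => (hall i).1)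
  refine (h10.trans (prod_le_prod (fun i _ => Nat.cast_nonneg _) (fun i _ => hone i))).trans ?_
  rw [prod_mul_distrib, prod_mul_distrib, ← hlam, ← Real.rpow_sum_of_pos hT0,
    ← Real.rpow_sum_of_pos hq0, mul_assoc, mul_assoc]
  refine mul_le_mul_of_nonneg_left ?_ hlam0
  have e1 : (s : ℝ) + r - ((s : ℝ) + r - ∑ i, 1 / (m i : ℝ)) = ∑ i, 1 / (m i : ℝ) := by ring
  rw [e1, mul_left_comm]
  refine mul_le_mul_of_nonneg_left ?_ (by positivity)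
  rw [Real.rpow_def_of_pos hq0, Real.rpow_def_of_pos hq0, ← Real.exp_add, ← Real.exp_add,
    Real.exp_le_exp]
  have h2 := hbig y hy
  have h3 : 0 ≤ ht y := Real.log_nonneg hq1
  have h4 : min ε g * ht y ≤ g * ht y := mul_le_mul_of_nonneg_right (min_le_right _ _) h3
  have e2 : (∑ i, (d i : ℝ) * (1 - 1 / (m i : ℝ))) =
      (∑ i, (d i : ℝ)) - (∑ i, (d i : ℝ) * (1 / (m i : ℝ))) := by
    rw [← sum_sub_distrib]
    refine sum_congr rfl (fun i _ => ?_)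
    ring
  rw [e2] at h2
  unfold ht at h2 h3 h4
  nlinarith

/-- the part of the integer `v` prime to the primes in `S`. -/
noncomputable def offS (S : Finset ℕ) (v : ℤ) : ℕ :=
  ∏ p ∈ v.natAbs.primeFactors \ S, p ^ v.natAbs.factorization p

/-- the proximity function of the divisor `F 0 ⋯ F (r-1) = 0` for the places `∞` and `p ∈ S` at the
point with coprime coordinates `y`. -/
noncomputable def prox {n r : ℕ} (S : Finset ℕ) (d : Fin r → ℕ)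
    (F : Fin r → MvPolynomial (Fin (n + 1)) ℤ) (y : Fin (n + 1) → ℤ) : ℝ :=
  ∑ i, ((d i : ℝ) * ht y - Real.log (offS S (eval y (F i))))

theorem rho_le_offS (S : Finset ℕ) (v : ℤ) : rho S v ≤ offS S v := by
  unfold rho offS
  refine prod_le_prod' (fun p hp => ?_)
  rw [mem_sdiff] at hp
  have h1 := Nat.prime_of_mem_primeFactors hp.1
  have h2 : 1 ≤ v.natAbs.factorization p := by
    rw [Nat.one_le_iff_ne_zero, ← Finsupp.mem_support_iff, Nat.support_factorization]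
    exact hp.1
  exact Nat.le_self_pow (by omega) p

theorem prox_add {n r : ℕ} (S : Finset ℕ) (d : Fin r → ℕ)
    (F : Fin r → MvPolynomial (Fin (n + 1)) ℤ) (y : Fin (n + 1) → ℤ)
    (hF : ∀ i, eval y (F i) ≠ 0) : prox S d F y + N1 S F y ≤ (∑ i, (d i : ℝ)) * ht y := by
  have h1 : N1 S F y ≤ ∑ i, Real.log (offS S (eval y (F i))) := by
    rw [N1_eq]
    have hpos : ∀ i, (0 : ℝ) < rho S (eval y (F i)) := fun i => by exact_mod_cast rho_pos S _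
    have h2 : ((rho S (∏ i, eval y (F i)) : ℕ) : ℝ) ≤ ∏ i, ((rho S (eval y (F i)) : ℕ) : ℝ) := by
      exact_mod_cast rho_prod_le S (fun i => eval y (F i)) hF
    have h3 : Real.log (rho S (∏ i, eval y (F i))) ≤
        Real.log (∏ i, ((rho S (eval y (F i)) : ℕ) : ℝ)) :=
      Real.log_le_log (by exact_mod_cast rho_pos S _) h2
    refine h3.trans ?_
    rw [Real.log_prod (fun i _ => (hpos i).ne')]
    refine sum_le_sum (fun i _ => Real.log_le_log (hpos i) ?_)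
    exact_mod_cast rho_le_offS S _
  unfold prox
  rw [sum_sub_distrib, ← sum_mul]
  linarith

end Pool.Agent.Q256.VS
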