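import Mathlib
import Pool.Agent.Q256.VS.Fin

set_option autoImplicit false

namespace Pool.Agent.Q256.VS

open Finset MvPolynomial
open Pool.Agent.Q256.CI Pool.Agent.Q256.VT

/-- projective space. -/
theorem conv_proj (n : ℕ) : Conv {y : Fin (n + 1) → ℤ | Prim y} (fun y => ((n : ℝ) + 1) * ht y) := by
  intro ε hε
  have h := (summ_real n (-((n : ℝ) + 1) - ε) (by linarith)).comp_injective
    (Subtype.val_injective (p := fun y : Fin (n + 1) → ℤ => y ∈ {y | Prim y}))
  refine h.congr (fun y => ?_)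
  have hq0 : (0 : ℝ) < ((qq (y : Fin (n + 1) → ℤ) : ℕ) : ℝ) := by
    exact_mod_cast qq_pos _ (Prim.ne y.2)
  rw [Function.comp_apply, norm_eq_qq, Real.rpow_def_of_pos hq0]
  congr 1
  unfold ht
  ring

/-- a set of points with a polynomial bound for the number of its points of bounded height. -/
theorem conv_count {n : ℕ} (𝒴 : Set (Fin (n + 1) → ℤ)) (hprim : ∀ y ∈ 𝒴, Prim y) (κ : ℝ)
    (hcount : ∀ ε : ℝ, 0 < ε → ∃ C : ℝ, ∀ B : ℕ, 1 ≤ B →
      (Nat.card {y : Fin (n + 1) → ℤ // y ∈ 𝒴 ∧ ∀ k, |y k| ≤ B} : ℝ) ≤ C * (B : ℝ) ^ (κ + ε)) :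
    Conv 𝒴 (fun y => κ * ht y) := by
  classical
  intro ε hε
  obtain ⟨C, hC⟩ := hcount (ε / 2) (by positivity)
  -- the terms
  have hterm : ∀ y : 𝒴, Real.exp (-(κ * ht (y : Fin (n + 1) → ℤ) + ε * ht (y : Fin (n + 1) → ℤ))) =
      ((qq (y : Fin (n + 1) → ℤ) : ℕ) : ℝ) ^ (-(κ + ε)) := by
    intro y
    have hq0 : (0 : ℝ) < ((qq (y : Fin (n + 1) → ℤ) : ℕ) : ℝ) := by
      exact_mod_cast qq_pos _ (Prim.ne (hprim y y.2))
    rw [Real.rpow_def_of_pos hq0]
    congr 1
    unfold ht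
    ring
  simp_rw [hterm]
  have hC0 : 0 ≤ C := by
    have := hC 1 le_rfl
    simp only [Nat.cast_one, Real.one_rpow, mul_one] at this
    exact (Nat.cast_nonneg _).trans this
  set A : ℝ := max 1 ((2 : ℝ) ^ (-(κ + ε))) with hA
  have hA0 : 0 ≤ A := le_max_of_le_left zero_le_one
  set ρ : ℝ := (2 : ℝ) ^ (-(ε / 2)) with hρ
  have hρ0 : 0 ≤ ρ := by positivity
  have hρ1 : ρ < 1 := Real.rpow_lt_one_of_one_lt_of_neg one_lt_two (by linarith)
  set C' : ℝ := A * C * (2 : ℝ) ^ (κ + ε / 2) with hC'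
  have hC'0 : 0 ≤ C' := by positivity
  have hbound : ∀ t : Finset 𝒴, ∑ y ∈ t, ((qq (y : Fin (n + 1) → ℤ) : ℕ) : ℝ) ^ (-(κ + ε)) ≤
      C' * (1 - ρ)⁻¹ := by
    intro t
    let lev : 𝒴 → ℕ := fun y => Nat.log 2 (qq (y : Fin (n + 1) → ℤ))
    let N : ℕ := t.sup lev + 1
    have hmaps : ∀ y ∈ t, lev y ∈ range N := by
      intro y hy
      rw [mem_range]
      exact Nat.lt_succ_of_le (le_sup hy)
    rw [← sum_fiberwise_of_maps_to hmaps]
    have hlev : ∀ k ∈ range N, ∑ y ∈ t with lev y = k,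
        ((qq (y : Fin (n + 1) → ℤ) : ℕ) : ℝ) ^ (-(κ + ε)) ≤ C' * ρ ^ k := by
      intro k _
      have h1 : ∀ y ∈ t.filter (fun y => lev y = k),
          ((qq (y : Fin (n + 1) → ℤ) : ℕ) : ℝ) ^ (-(κ + ε)) ≤ A * ((2 : ℝ) ^ k) ^ (-(κ + ε)) := by
        intro y hy
        rw [mem_filter] at hy
        have hq1 : qq (y : Fin (n + 1) → ℤ) ≠ 0 :=
          Nat.one_le_iff_ne_zero.1 (qq_pos _ (Prim.ne (hprim y y.2)))
        have h2 : 2 ^ k ≤ qq (y : Fin (n + 1) → ℤ) := by
          rw [← hy.2]; exact Nat.pow_log_le_self 2 hq1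
        have h3 : qq (y : Fin (n + 1) → ℤ) < 2 ^ (k + 1) := by
          rw [← hy.2]; exact Nat.lt_pow_succ_log_self (by norm_num) _
        have h2r : (2 : ℝ) ^ k ≤ ((qq (y : Fin (n + 1) → ℤ) : ℕ) : ℝ) := by exact_mod_cast h2
        have h3r : ((qq (y : Fin (n + 1) → ℤ) : ℕ) : ℝ) ≤ 2 * (2 : ℝ) ^ k := by
          have : ((qq (y : Fin (n + 1) → ℤ) : ℕ) : ℝ) ≤ (2 : ℝ) ^ (k + 1) := by exact_mod_cast h3.le
          rw [pow_succ] at this
          linarith
        have hk0 : (0 : ℝ) < (2 : ℝ) ^ k := by positivity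
        rcases le_or_gt 0 (κ + ε) with h | h
        · have h4 : ((qq (y : Fin (n + 1) → ℤ) : ℕ) : ℝ) ^ (-(κ + ε)) ≤
              ((2 : ℝ) ^ k) ^ (-(κ + ε)) :=
            Real.rpow_le_rpow_of_nonpos hk0 h2r (by linarith)
          refine h4.trans (le_mul_of_one_le_left (by positivity) (le_max_left _ _))
        · have h4 : ((qq (y : Fin (n + 1) → ℤ) : ℕ) : ℝ) ^ (-(κ + ε)) ≤
              (2 * (2 : ℝ) ^ k) ^ (-(κ + ε)) :=
            Real.rpow_le_rpow (by positivity) h3r (by linarith)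
          rw [Real.mul_rpow (by norm_num) hk0.le] at h4
          exact h4.trans (mul_le_mul_of_nonneg_right (le_max_right _ _) (by positivity))
      refine (sum_le_sum h1).trans ?_
      rw [sum_const, nsmul_eq_mul]
      have h5 : (#(t.filter (fun y => lev y = k)) : ℝ) ≤ C * (((2 ^ (k + 1) : ℕ)) : ℝ) ^ (κ + ε / 2) := by
        refine le_trans ?_ (hC (2 ^ (k + 1)) Nat.one_le_two_pow)
        have hfin : Finite {y : Fin (n + 1) → ℤ // y ∈ 𝒴 ∧ ∀ j, |y j| ≤ (2 ^ (k + 1) : ℕ)} := by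
          have hf : ({y : Fin (n + 1) → ℤ | y ∈ 𝒴 ∧ ∀ j, |y j| ≤ (2 ^ (k + 1) : ℕ)}).Finite := by
            refine (Set.Finite.pi' (fun _ : Fin (n + 1) =>
              Set.finite_Icc (-((2 ^ (k + 1) : ℕ) : ℤ)) ((2 ^ (k + 1) : ℕ) : ℤ))).subset ?_
            intro y hy j
            rw [Set.mem_Icc, ← abs_le]
            exact hy.2 j
          exact hf.to_subtype
        have hinj : #(t.filter (fun y => lev y = k)) ≤
            Nat.card {y : Fin (n + 1) → ℤ // y ∈ 𝒴 ∧ ∀ j, |y j| ≤ (2 ^ (k + 1) : ℕ)} := by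
          have hc : Nat.card (t.filter (fun y => lev y = k)) = #(t.filter (fun y => lev y = k)) := by
            rw [Nat.card_eq_fintype_card, Fintype.card_coe]
          rw [← hc]
          refine Nat.card_le_card_of_injective (fun y => ⟨((y : 𝒴) : Fin (n + 1) → ℤ),
            (y : 𝒴).2, fun j => ?_⟩) ?_
          · have hy := y.2
            rw [mem_filter] at hy
            have h3 : qq ((y : 𝒴) : Fin (n + 1) → ℤ) < 2 ^ (k + 1) :=
              (Nat.lt_pow_succ_log_self (b := 2) (by norm_num) _).trans_eq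
                (congrArg (fun l => 2 ^ (l + 1)) hy.2)
            have h4 := le_qq ((y : 𝒴) : Fin (n + 1) → ℤ) j
            have h5 : ((qq ((y : 𝒴) : Fin (n + 1) → ℤ) : ℕ) : ℤ) ≤ ((2 ^ (k + 1) : ℕ) : ℤ) := by
              exact_mod_cast h3.le
            exact h4.trans h5
          · intro y z h
            have h1 := congrArg Subtype.val h
            exact Subtype.ext (Subtype.ext h1)
        exact_mod_cast hinj
      have h6 : (#(t.filter (fun y => lev y = k)) : ℝ) * (A * ((2 : ℝ) ^ k) ^ (-(κ + ε))) ≤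
          C * (((2 ^ (k + 1) : ℕ)) : ℝ) ^ (κ + ε / 2) * (A * ((2 : ℝ) ^ k) ^ (-(κ + ε))) :=
        mul_le_mul_of_nonneg_right h5 (by positivity)
      refine h6.trans (le_of_eq ?_)
      rw [hC', hρ]
      push_cast
      rw [pow_succ, Real.mul_rpow (by positivity) (by norm_num), ← Real.rpow_natCast (2 : ℝ) k,
        ← Real.rpow_mul (by norm_num), ← Real.rpow_mul (by norm_num),
        ← Real.rpow_natCast ((2 : ℝ) ^ (-(ε / 2))) k, ← Real.rpow_mul (by norm_num)]
      have h7 : (2 : ℝ) ^ ((k : ℝ) * (κ + ε / 2)) * (2 : ℝ) ^ ((k : ℝ) * -(κ + ε)) =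
          (2 : ℝ) ^ (-(ε / 2) * k) := by
        rw [← Real.rpow_add (by norm_num)]
        congr 1
        ring
      rw [← h7]
      ring
    refine (sum_le_sum hlev).trans ?_
    rw [← mul_sum]
    refine mul_le_mul_of_nonneg_left ?_ hC'0
    have hs := summable_geometric_of_lt_one hρ0 hρ1
    rw [← tsum_geometric_of_lt_one hρ0 hρ1]
    exact hs.sum_le_tsum _ (fun i _ => pow_nonneg hρ0 i)
  exact summable_of_sum_le (fun y => by positivity) hbound

/-- the indices of the coordinates of the Segre embedding of `ℙ^a × ℙ^b`. -/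
def seg (a b : ℕ) : Fin (a + 1) × Fin (b + 1) ≃ Fin (a * b + a + b + 1) :=
  finProdFinEquiv.trans (finCongr (by ring))

/-- the Segre embedding of `ℙ^a × ℙ^b`. -/
def segre {a b : ℕ} (u : Fin (a + 1) → ℤ) (v : Fin (b + 1) → ℤ) : Fin (a * b + a + b + 1) → ℤ :=
  fun k => u ((seg a b).symm k).1 * v ((seg a b).symm k).2

theorem sum_segre {a b : ℕ} (u α : Fin (a + 1) → ℤ) (v β : Fin (b + 1) → ℤ) :
    ∑ k, segre α β k * segre u v k = (∑ i, α i * u i) * ∑ j, β j * v j := by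
  rw [Finset.sum_mul_sum, ← Finset.sum_product', ← (seg a b).sum_comp]
  refine sum_congr rfl (fun p _ => ?_)
  unfold segre
  rw [Equiv.symm_apply_apply]
  ring

theorem prim_segre {a b : ℕ} (u : Fin (a + 1) → ℤ) (v : Fin (b + 1) → ℤ) (hu : Prim u)
    (hv : Prim v) : Prim (segre u v) := by
  obtain ⟨α, hα⟩ := hu
  obtain ⟨β, hβ⟩ := hv
  exact ⟨segre α β, by rw [sum_segre, hα, hβ, one_mul]⟩

theorem qq_segre {a b : ℕ} (u : Fin (a + 1) → ℤ) (v : Fin (b + 1) → ℤ) :
    qq (segre u v) = qq u * qq v := by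
  apply le_antisymm
  · unfold qq
    refine Finset.sup_le (fun k _ => ?_)
    unfold segre
    rw [Int.natAbs_mul]
    exact Nat.mul_le_mul (le_sup (f := fun k => (u k).natAbs) (mem_univ _))
      (le_sup (f := fun k => (v k).natAbs) (mem_univ _))
  · obtain ⟨i, hi⟩ := exists_qq u
    obtain ⟨j, hj⟩ := exists_qq v
    have h := le_qq (segre u v) (seg a b (i, j))
    have h2 : segre u v (seg a b (i, j)) = u i * v j := by
      unfold segre
      rw [Equiv.symm_apply_apply]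
    rw [h2, abs_mul, hi, hj] at h
    exact_mod_cast h

theorem qq_of_segre {a b : ℕ} (u u' : Fin (a + 1) → ℤ) (v v' : Fin (b + 1) → ℤ) (hu : Prim u)
    (hv : Prim v) (hv' : Prim v') (h : segre u v = segre u' v') : qq u = qq u' := by
  have hent : ∀ i j, u i * v j = u' i * v' j := by
    intro i j
    have h1 := congrFun h (seg a b (i, j))
    unfold segre at h1
    rwa [Equiv.symm_apply_apply] at h1
  obtain ⟨β, hβ⟩ := hv
  obtain ⟨β', hβ'⟩ := hv'
  set c : ℤ := ∑ j, β j * v' j with hc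
  set c' : ℤ := ∑ j, β' j * v j with hc'
  have h1 : ∀ i, u i = c * u' i := by
    intro i
    calc u i = (∑ j, β j * v j) * u i := by rw [hβ, one_mul]
      _ = ∑ j, β j * (u i * v j) := by rw [sum_mul]; exact sum_congr rfl (fun j _ => by ring)
      _ = ∑ j, β j * (u' i * v' j) := sum_congr rfl (fun j _ => by rw [hent])
      _ = c * u' i := by rw [hc, sum_mul]; exact sum_congr rfl (fun j _ => by ring)
  have h2 : ∀ i, u' i = c' * u i := by
    intro i
    calc u' i = (∑ j, β' j * v' j) * u' i := by rw [hβ', one_mul]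
      _ = ∑ j, β' j * (u' i * v' j) := by rw [sum_mul]; exact sum_congr rfl (fun j _ => by ring)
      _ = ∑ j, β' j * (u i * v j) := sum_congr rfl (fun j _ => by rw [hent])
      _ = c' * u i := by rw [hc', sum_mul]; exact sum_congr rfl (fun j _ => by ring)
  have hne := hu.ne
  obtain ⟨i, hi⟩ : ∃ i, u i ≠ 0 := by
    by_contra hcon
    push Not at hcon
    exact hne (funext hcon)
  have h3 : c * c' = 1 := by
    have h4 : u i * (c * c' - 1) = 0 := by
      have h5 : u i = c * (c' * u i) := by rw [← h2]; exact h1 i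
      linear_combination -h5
    rcases mul_eq_zero.1 h4 with h5 | h5
    · exact absurd h5 hi
    · linarith
  have h4 : c.natAbs = 1 := Int.isUnit_iff_natAbs_eq.1 (IsUnit.of_mul_eq_one c' h3)
  unfold qq
  refine sup_congr rfl (fun k _ => ?_)
  rw [h1 k, Int.natAbs_mul, h4, one_mul]

theorem segre_swap {a b : ℕ} (u u' : Fin (a + 1) → ℤ) (v v' : Fin (b + 1) → ℤ)
    (h : segre u v = segre u' v') : segre v u = segre v' u' := by
  funext k
  have h1 := congrFun h (seg a b (((seg b a).symm k).2, ((seg b a).symm k).1))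
  unfold segre at h1 ⊢
  rw [Equiv.symm_apply_apply] at h1
  dsimp only at h1
  rw [mul_comm, h1, mul_comm]

/-- the products of two projective spaces; `-K` has degrees `(a + 1, b + 1)`. -/
theorem conv_segre (a b : ℕ) : ∃ w : (Fin (a * b + a + b + 1) → ℤ) → ℝ,
    (∀ (u : Fin (a + 1) → ℤ) (v : Fin (b + 1) → ℤ), Prim u → Prim v →
      w (segre u v) = ((a : ℝ) + 1) * ht u + ((b : ℝ) + 1) * ht v) ∧
    Conv {y | ∃ (u : Fin (a + 1) → ℤ) (v : Fin (b + 1) → ℤ), Prim u ∧ Prim v ∧ y = segre u v} w := by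
  classical
  set 𝒴 : Set (Fin (a * b + a + b + 1) → ℤ) :=
    {y | ∃ (u : Fin (a + 1) → ℤ) (v : Fin (b + 1) → ℤ), Prim u ∧ Prim v ∧ y = segre u v} with h𝒴
  have key : ∀ y : Fin (a * b + a + b + 1) → ℤ,
      ∃ p : (Fin (a + 1) → ℤ) × (Fin (b + 1) → ℤ), y ∈ 𝒴 → Prim p.1 ∧ Prim p.2 ∧
        y = segre p.1 p.2 := by
    intro y
    by_cases hy : y ∈ 𝒴
    · obtain ⟨u, v, h1, h2, h3⟩ := hy
      exact ⟨(u, v), fun _ => ⟨h1, h2, h3⟩⟩
    · exact ⟨(0, 0), fun h => absurd h hy⟩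
  choose p hp using key
  refine ⟨fun y => ((a : ℝ) + 1) * ht (p y).1 + ((b : ℝ) + 1) * ht (p y).2, ?_, ?_⟩
  · intro u v hu hv
    obtain ⟨h1, h2, h3⟩ := hp (segre u v) ⟨u, v, hu, hv, rfl⟩
    have h4 := qq_of_segre u (p (segre u v)).1 v (p (segre u v)).2 hu hv h2 h3
    have h5 := qq_of_segre v (p (segre u v)).2 u (p (segre u v)).1 hv hu h1
      (segre_swap _ _ _ _ h3)
    unfold ht
    rw [h4, h5]
  · intro ε hε
    have hA := summ_real a (-((a : ℝ) + 1) - ε) (by linarith)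
    have hB := summ_real b (-((b : ℝ) + 1) - ε) (by linarith)
    have hAB := hA.mul_of_nonneg hB (fun _ => by positivity) (fun _ => by positivity)
    have hinj : Function.Injective (fun y : 𝒴 => p (y : Fin (a * b + a + b + 1) → ℤ)) := by
      intro y z h
      apply Subtype.ext
      rw [(hp y y.2).2.2, (hp z z.2).2.2]
      dsimp only at h
      rw [h]
    refine (hAB.comp_injective hinj).congr (fun y => ?_)
    obtain ⟨h1, h2, h3⟩ := hp y y.2
    have hq1 : (0 : ℝ) < ((qq (p y).1 : ℕ) : ℝ) := by exact_mod_cast qq_pos _ (Prim.ne h1)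
    have hq2 : (0 : ℝ) < ((qq (p y).2 : ℕ) : ℝ) := by exact_mod_cast qq_pos _ (Prim.ne h2)
    have h4 : ht (y : Fin (a * b + a + b + 1) → ℤ) = ht (p y).1 + ht (p y).2 := by
      unfold ht
      conv_lhs => rw [h3]
      rw [qq_segre, Nat.cast_mul, Real.log_mul hq1.ne' hq2.ne']
    rw [Function.comp_apply]
    dsimp only
    rw [norm_eq_qq, norm_eq_qq, Real.rpow_def_of_pos hq1, Real.rpow_def_of_pos hq2,
      ← Real.exp_add, h4]
    congr 1
    unfold ht
    ring

end Pool.Agent.Q256.VS
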