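import Mathlib
import Pool.Agent.Q256.VS.Inst

set_option autoImplicit false

namespace Pool.Agent.Q256.VS

open Finset MvPolynomial
open Pool.Agent.Q256.CI Pool.Agent.Q256.VT

/-- the pairs `(X, D)` for which `m_{S,D} + h_{K_X} ≤ ε h - (s + r - δ) log T` fails at some point of
`𝒴` on `X`, outside `D`, which is cut out by hyperplanes with coefficients at most `T`. -/
def FailsM {n s r : ℕ} (S : Finset ℕ) (e : Fin s → ℕ) (d : Fin r → ℕ)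
    (𝒴 : Set (Fin (n + 1) → ℤ)) (w : (Fin (n + 1) → ℤ) → ℝ) (H T : ℕ) (ε δ : ℝ) :
    Set (Sys n s r) :=
  {P | InBox e d H P ∧ ∃ y ∈ 𝒴, CutOut T (fun k => (y k : ℚ)) ∧ (∀ j, eval y (P.1 j) = 0) ∧
    (∀ i, eval y (P.2 i) ≠ 0) ∧
    ε * ht y - ((s : ℝ) + r - δ) * Real.log T <
      prox S d P.2 y + ((∑ j, (e j : ℝ)) * ht y - w y)}

theorem failsM_sub {n s r : ℕ} (S : Finset ℕ) (e : Fin s → ℕ) (d : Fin r → ℕ)
    (𝒴 : Set (Fin (n + 1) → ℤ)) (w : (Fin (n + 1) → ℤ) → ℝ) (H T : ℕ) (ε δ : ℝ) :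
    FailsM S e d 𝒴 w H T ε δ ⊆ Fails S e d 𝒴 w H T ε δ := by
  rintro P ⟨h1, y, hy, h2, h3, h4, h5⟩
  refine ⟨h1, y, hy, h2, h3, h4, ?_⟩
  have h6 := prox_add S d P.2 y h4
  linarith

theorem inBox_finite {n s r : ℕ} (e : Fin s → ℕ) (d : Fin r → ℕ) (H : ℕ) :
    {P : Sys n s r | InBox e d H P}.Finite := by
  have h1 : {F : Fin s → MvPolynomial (Fin (n + 1)) ℤ | ∀ j, F j ∈ Box n (e j) H}.Finite :=
    (Set.Finite.pi' (fun i => finite_box n (e i) H)).subset (fun F h i => h i)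
  have h2 : {F : Fin r → MvPolynomial (Fin (n + 1)) ℤ | ∀ j, F j ∈ Box n (d j) H}.Finite :=
    (Set.Finite.pi' (fun i => finite_box n (d i) H)).subset (fun F h i => h i)
  refine (h1.prod h2).subset ?_
  rintro F h
  exact ⟨h.1, h.2⟩

theorem failsM {n s r : ℕ} (S : Finset ℕ) (e : Fin s → ℕ) (d : Fin r → ℕ)
    (hd : ∀ i, 1 ≤ d i) (𝒴 : Set (Fin (n + 1) → ℤ)) (hprim : ∀ y ∈ 𝒴, Prim y)
    (w : (Fin (n + 1) → ℤ) → ℝ) (hw : Conv 𝒴 w) (ε : ℝ) (hε : 0 < ε) :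
    ∃ C : ℝ, ∀ (δ : ℝ) (H T : ℕ), 1 ≤ T → H ≤ T →
      (Nat.card (FailsM S e d 𝒴 w H T ε δ) : ℝ) ≤
        C * (T : ℝ) ^ ((∑ j, ((n + e j).choose n : ℝ)) +
          (∑ i, ((n + d i).choose n : ℝ)) - δ + ε) := by
  obtain ⟨C, hC⟩ := fails (n := n) S e d hd 𝒴 hprim w hw ε hε
  refine ⟨C, fun δ H T hT hHT => ?_⟩
  exact (card_le_of_sub (failsM_sub S e d 𝒴 w H T ε δ)
    ((inBox_finite e d H).subset (fun P hP => hP.1))).trans (hC δ H T hT hHT)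

theorem total2 {n s r : ℕ} (e : Fin s → ℕ) (d : Fin r → ℕ) (H : ℕ) :
    Nat.card {P : Sys n s r // InBox e d H P} =
      (2 * H + 1) ^ ((∑ j, (n + e j).choose n) + ∑ i, (n + d i).choose n) := by
  have e1 : {P : Sys n s r // InBox e d H P} ≃
      {F : Fin s → MvPolynomial (Fin (n + 1)) ℤ // ∀ i, F i ∈ Box n (e i) H} ×
      {F : Fin r → MvPolynomial (Fin (n + 1)) ℤ // ∀ i, F i ∈ Box n (d i) H} :=
    Equiv.subtypeProdEquivProd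
      (p := fun F : Fin s → MvPolynomial (Fin (n + 1)) ℤ => ∀ i, F i ∈ Box n (e i) H)
      (q := fun F : Fin r → MvPolynomial (Fin (n + 1)) ℤ => ∀ i, F i ∈ Box n (d i) H)
  rw [Nat.card_congr e1, Nat.card_prod, total, total, pow_add]

end Pool.Agent.Q256.VS
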